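import Mathlib
import Pool.Agent.Q209.JFU
import Pool.Agent.Q209.JPos

/-!
# MP_c54930_gt, Q1

Whether every first-countable regular submetrizable space `X` with Fréchet-Urysohn `Q_p(X, ℝ)` is
countable is independent of ZFC: it is so if Borel's conjecture holds (first countability is not
needed), and it is not so if `◇` holds.
-/

set_option autoImplicit false

namespace Pool.Agent.Results.MP_c54930_gt.Independence

open Q209.QC Q209.JF Q209.FSep

universe u

/-- Borel's conjecture implies that every regular (`T₃`) submetrizable space with Fréchet-Urysohn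
`Q_p(X, ℝ)` is countable; `◇` implies that there is an uncountable first-countable regular (`T₃`)
submetrizable space with Fréchet-Urysohn `Q_p(X, ℝ)`. -/
theorem result :
    (BorelConjecture → ∀ (X : Type u) [TopologicalSpace X] [T3Space X], Submetrizable X →
      FrechetUrysohnSpace (Qp X) → Countable X) ∧
    (Diamond → ∃ (X : Type) (_ : TopologicalSpace X), T3Space X ∧ FirstCountableTopology X ∧
      Submetrizable X ∧ FrechetUrysohnSpace (Qp X) ∧ ¬ Countable X) := by
  constructor
  · intro hBC X _ _ hsub hFU
    refine countable_of_BC hBC hsub fun A hA => ?_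
    have h1 := hFU.closure_subset_seqClosure A hA
    exact h1
  · intro h
    obtain ⟨𝒜, h𝒜⟩ := diamond_Big h
    obtain ⟨L, hL⟩ := exists_levels 𝒜
    have h2 : T2Space (Sp L) := sp_t2 hL
    have hreg : RegularSpace (Sp L) := sp_regular hL
    refine ⟨Sp L, inferInstance, inferInstance, sp_first hL, sp_submetrizable hL,
      ⟨fun A f hf => ?_⟩, sp_uncountable⟩
    obtain ⟨s, hs, hlim⟩ := sp_fu hL h𝒜 f A hf
    exact ⟨s, hs, hlim⟩

end Pool.Agent.Results.MP_c54930_gt.Independence
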